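import Mathlib
import Pool.Agent.Helper98_Assouad.Chain

/-!
# Assouad dimension of projections of self-similar sets with dense rotations

For `1 ≤ k < d`, every self-similar set `F ⊆ ℝ^d` with at least two points whose rotations are dense
satisfies `dim_A π F = k` for every orthogonal projection `π` onto a `k`-dimensional subspace.
-/

open Module

namespace Pool.Agent.Results.MP_b41e65_an.AssouadProjections

/-- `A` can be covered by `n` open sets of diameter at most `r`; so `N_r(A)` is the least `n` with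
`CoverableBy r n A`. -/
def CoverableBy {X : Type*} [MetricSpace X] (r : ℝ) (n : ℕ) (A : Set X) : Prop :=
  ∃ U : Fin n → Set X,
    (∀ i, IsOpen (U i) ∧ ∀ x ∈ U i, ∀ y ∈ U i, dist x y ≤ r) ∧ A ⊆ ⋃ i, U i

/-- `N_r(B(x,R) ∩ F) ≤ C (R/r)^s` for all `0 < r < R` and all `x ∈ F`. -/
def AssouadBound {X : Type*} [MetricSpace X] (F : Set X) (s C : ℝ) : Prop :=
  ∀ x ∈ F, ∀ r R : ℝ, 0 < r → r < R →
    ∃ n : ℕ, CoverableBy r n (Metric.ball x R ∩ F) ∧ (n : ℝ) ≤ C * (R / r) ^ s

/-- The Assouad dimension of `F`: the infimum of all `s ≥ 0` for which there is `C > 0` with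
`N_r(B(x,R) ∩ F) ≤ C (R/r)^s` for all `0 < r < R` and all `x ∈ F`. -/
noncomputable def assouadDim {X : Type*} [MetricSpace X] (F : Set X) : ℝ :=
  sInf {s : ℝ | 0 ≤ s ∧ ∃ C : ℝ, 0 < C ∧ AssouadBound F s C}

/-- A family of contracting similarities `S_i(x) = c_i O_i x + t_i` of the Euclidean space `E`,
with `0 < c_i < 1` and `O_i` a linear isometry of `E` onto itself (an element of `O(d)` when
`E = ℝ^d`). -/
structure Similarities (E : Type*) [NormedAddCommGroup E] [InnerProductSpace ℝ E] (ι : Type*) where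
  /-- the ratios `c_i` -/
  ratio : ι → ℝ
  /-- the orthogonal parts `O_i` -/
  rot : ι → (E ≃ₗᵢ[ℝ] E)
  /-- the translations `t_i` -/
  shift : ι → E
  /-- the maps are contractions -/
  ratio_mem : ∀ i, 0 < ratio i ∧ ratio i < 1

section Defs

variable {E : Type*} [NormedAddCommGroup E] [InnerProductSpace ℝ E] {ι : Type*}

/-- The similarity `S_i`. -/
def Similarities.map (S : Similarities E ι) (i : ι) (x : E) : E :=
  S.ratio i • S.rot i x + S.shift i

/-- `F` is the attractor of the family: non-empty, compact and equal to the union of its images. -/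
def Similarities.IsAttractor (S : Similarities E ι) (F : Set E) : Prop :=
  F.Nonempty ∧ IsCompact F ∧ F = ⋃ i, S.map i '' F

/-- The group `Γ` generated by the orthogonal parts `O_i`. -/
def Similarities.group (S : Similarities E ι) : Subgroup (E ≃ₗᵢ[ℝ] E) :=
  Subgroup.closure (Set.range S.rot)

/-- `R` is a rotation: a linear isometry of determinant one (an element of `SO(d)`). -/
def IsRotation (R : E ≃ₗᵢ[ℝ] E) : Prop := LinearMap.det R.toLinearMap = 1

/-- The rotations are dense: the closure (in operator norm) of the group `Γ` generated by the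
`O_i` contains `SO(d)`. -/
def Similarities.DenseRotations (S : Similarities E ι) : Prop :=
  ∀ R : E ≃ₗᵢ[ℝ] E, IsRotation R → ∀ ε : ℝ, 0 < ε → ∃ g ∈ S.group, ∀ x, ‖g x - R x‖ ≤ ε * ‖x‖

/-- The image of `F` under the orthogonal projection onto the subspace `V`. -/
noncomputable def projectedSet [FiniteDimensional ℝ E] (V : Submodule ℝ E) (F : Set E) : Set E :=
  (fun x => V.starProjection x) '' F

end Defs

section Aux

variable {E : Type*} [NormedAddCommGroup E] [InnerProductSpace ℝ E] [FiniteDimensional ℝ E]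

omit [InnerProductSpace ℝ E] [FiniteDimensional ℝ E] in
theorem coverableBy_card {β : Type*} (s : Finset β) (q : β → E) (r : ℝ) (A : Set E)
    (hA : ∀ p ∈ A, ∃ m ∈ s, dist p (q m) < r / 2) : CoverableBy r s.card A := by
  refine ⟨fun i => Metric.ball (q (s.equivFin.symm i)) (r / 2), fun i => ⟨Metric.isOpen_ball, ?_⟩, ?_⟩
  · intro x hx y hy
    have h1 := Metric.mem_ball.1 hx
    have h2 := Metric.mem_ball.1 hy
    have h3 := dist_triangle_right x y (q (s.equivFin.symm i))
    linarith
  · intro p hp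
    obtain ⟨m, hm, hpm⟩ := hA p hp
    refine Set.mem_iUnion.2 ⟨s.equivFin ⟨m, hm⟩, ?_⟩
    simp only [Equiv.symm_apply_apply]
    exact hpm

/-- The Assouad dimension of a subset of a `k`-dimensional subspace is at most `k`. -/
theorem assouadBound_of_subset {k : ℕ} (hk : 1 ≤ k) (V : Submodule ℝ E) (hV : finrank ℝ V = k)
    (A : Set E) (hA : A ⊆ V) : AssouadBound A k ((8 * k + 3 : ℝ) ^ k) := by
  classical
  intro x hx r R hr hrR
  have hk0 : (0 : ℝ) < k := by exact_mod_cast hk
  set b : OrthonormalBasis (Fin k) ℝ V := (stdOrthonormalBasis ℝ V).reindex (finCongr hV) with hb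
  set h : ℝ := r / (4 * k) with hh
  have hh0 : 0 < h := by positivity
  set M : ℕ := ⌈R / h⌉₊ with hM
  have hR0 : 0 < R := hr.trans hrR
  set s : Finset (Fin k → ℤ) := Fintype.piFinset fun _ => Finset.Icc (-(M : ℤ)) M with hs
  set q : (Fin k → ℤ) → E := fun m => x + ((∑ j, (m j * h) • b j : V) : E) with hq
  refine ⟨s.card, coverableBy_card s q r _ ?_, ?_⟩
  · rintro p ⟨hp, hpA⟩
    rw [Metric.mem_ball, dist_eq_norm] at hp
    set u : V := ⟨p - x, V.sub_mem (hA hpA) (hA hx)⟩ with hu
    have hun : ‖u‖ < R := hp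
    set m : Fin k → ℤ := fun j => ⌊inner ℝ (b j) u / h⌋ with hm
    refine ⟨m, ?_, ?_⟩
    · rw [hs, Fintype.mem_piFinset]
      intro j
      have h1 : |inner ℝ (b j) u| ≤ R := by
        have := abs_real_inner_le_norm (b j) u
        rw [b.norm_eq_one, one_mul] at this
        exact this.trans hun.le
      have h2 := abs_le.1 h1
      have h3 : R / h ≤ M := Nat.le_ceil _
      rw [Finset.mem_Icc]
      constructor
      · rw [hm]
        apply Int.le_floor.2
        push_cast
        rw [le_div_iff₀ hh0]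
        have : R ≤ M * h := by rwa [div_le_iff₀ hh0] at h3
        linarith
      · have h4 : inner ℝ (b j) u / h ≤ M := by
          refine le_trans ?_ h3
          gcongr
          exact h2.2
        have h5 := Int.floor_le (inner ℝ (b j) u / h)
        have h6 : ((⌊inner ℝ (b j) u / h⌋ : ℤ) : ℝ) ≤ ((M : ℤ) : ℝ) := by
          push_cast
          linarith
        exact_mod_cast h6
    · have h1 : p - q m = ((u - ∑ j, (m j * h) • b j : V) : E) := by
        rw [hq, Submodule.coe_sub, hu]
        simp only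
        abel
      rw [dist_eq_norm, h1]
      change ‖u - ∑ j, ((m j : ℝ) * h) • b j‖ < r / 2
      have h2 : u - ∑ j, ((m j : ℝ) * h) • b j
          = ∑ j, (inner ℝ (b j) u - m j * h) • b j := by
        conv_lhs => rw [← b.sum_repr' u]
        rw [← Finset.sum_sub_distrib]
        refine Finset.sum_congr rfl fun j _ => ?_
        rw [sub_smul]
      rw [h2]
      have h3 : ‖∑ j, (inner ℝ (b j) u - m j * h) • b j‖ ≤ ∑ _j : Fin k, h := by
        refine norm_sum_le_of_le _ fun j _ => ?_
        rw [norm_smul, b.norm_eq_one, mul_one, Real.norm_eq_abs, abs_le]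
        have h4 := Int.floor_le (inner ℝ (b j) u / h)
        have h5 := Int.lt_floor_add_one (inner ℝ (b j) u / h)
        rw [le_div_iff₀ hh0] at h4
        rw [div_lt_iff₀ hh0] at h5
        simp only [hm]
        constructor
        · linarith
        · nlinarith
      refine lt_of_le_of_lt h3 ?_
      rw [Finset.sum_const, Finset.card_univ, Fintype.card_fin, nsmul_eq_mul, hh]
      have : (k : ℝ) * (r / (4 * k)) = r / 4 := by field_simp
      rw [this]
      linarith
  · have hcard : s.card = (2 * M + 1) ^ k := by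
      rw [hs, Fintype.card_piFinset]
      simp only [Int.card_Icc, Finset.prod_const, Finset.card_univ, Fintype.card_fin]
      congr 1
      omega
    rw [hcard, Real.rpow_natCast, ← mul_pow]
    push_cast
    refine pow_le_pow_left₀ (by positivity) ?_ k
    have h1 : (M : ℝ) < R / h + 1 := Nat.ceil_lt_add_one (by positivity)
    have h2 : R / h = 4 * k * (R / r) := by rw [hh]; field_simp
    have h3 : 1 ≤ R / r := by rw [le_div_iff₀ hr]; linarith
    rw [h2] at h1
    nlinarith

omit [FiniteDimensional ℝ E] in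
/-- The sum of the vectors selected by a box. -/
theorem sum_box {k : ℕ} (hk : 1 ≤ k) (b : Fin k → E) (m : Fin k → ℕ) (n : ℕ) :
    ∑ i ∈ Finset.range (n * k), (if decide (i / k < m ⟨i % k, Nat.mod_lt _ hk⟩) = true
      then b ⟨i % k, Nat.mod_lt _ hk⟩ else 0) = ∑ j, ((min (m j) n : ℕ) : ℝ) • b j := by
  induction n with
  | zero => simp
  | succ n ih =>
    rw [Nat.succ_mul, Finset.sum_range_add, ih, Finset.sum_range, ← Finset.sum_add_distrib]
    refine Finset.sum_congr rfl fun j _ => ?_
    have h1 : (n * k + (j : ℕ)) / k = n := by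
      rw [mul_comm, Nat.mul_add_div (by omega), Nat.div_eq_of_lt j.2, add_zero]
    have h2 : (n * k + (j : ℕ)) % k = j := by
      rw [mul_comm, Nat.mul_add_mod, Nat.mod_eq_of_lt j.2]
    simp only [h1, h2, Fin.eta, decide_eq_true_eq]
    by_cases h : n < m j
    · rw [if_pos h, min_eq_right h.le, min_eq_right (by omega)]
      push_cast
      rw [add_smul, one_smul]
    · rw [if_neg h, min_eq_left (by omega), min_eq_left (by omega), add_zero]

end Aux

section Lower

variable {E : Type*} [NormedAddCommGroup E] [InnerProductSpace ℝ E] [FiniteDimensional ℝ E]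

/-- Approximate `k`-dimensional grids force the Assouad dimension to be at least `k`. -/
theorem le_of_assouadBound {k : ℕ} (hk : 1 ≤ k) (V : Submodule ℝ E) (hV : finrank ℝ V = k)
    (A : Set E)
    (hgrid : ∀ (N : ℕ) (e : ℕ → E), (∀ i, e i ∈ V) → (∀ i, ‖e i‖ ≤ 1) → ∀ η > (0 : ℝ),
      ∃ δ > (0 : ℝ), ∃ P : (ℕ → Bool) → E, (∀ ε, P ε ∈ A) ∧
      ∀ ε, ‖P ε - P (fun _ => false)
        - δ • ∑ i ∈ Finset.range N, (if ε i then e i else 0)‖ ≤ η * δ)
    {s C : ℝ} (hs : 0 ≤ s) (hC : 0 < C) (hb : AssouadBound A s C) : (k : ℝ) ≤ s := by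
  classical
  by_contra hcon
  push Not at hcon
  have hk0 : (0 : ℝ) < k := by exact_mod_cast hk
  set B : OrthonormalBasis (Fin k) ℝ V := (stdOrthonormalBasis ℝ V).reindex (finCongr hV) with hB
  set b : Fin k → E := fun j => (B j : E) with hbdef
  have hbn : ∀ j, ‖b j‖ = 1 := fun j => B.norm_eq_one j
  have hbi : ∀ i j, inner ℝ (b i) (b j) = if i = j then (1 : ℝ) else 0 := by
    intro i j
    have := (orthonormal_iff_ite.1 B.orthonormal) i j
    simpa using this
  -- the key counting inequality
  have key : ∀ n : ℕ, ((n : ℝ) + 1) ^ (k : ℝ) ≤ C * (2 * (k + 1) * ((n : ℝ) + 1)) ^ s := by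
    intro n
    obtain ⟨δ, hδ, P, hPA, hP⟩ := hgrid (n * k) (fun i => b ⟨i % k, Nat.mod_lt _ hk⟩)
      (fun i => (B _).2) (fun i => (hbn _).le) (1 / 8) (by norm_num)
    let ε : (Fin k → Fin (n + 1)) → ℕ → Bool := fun m i =>
      decide (i / k < (m ⟨i % k, Nat.mod_lt _ hk⟩ : ℕ))
    set x := P (fun _ => false) with hx
    set Q : (Fin k → Fin (n + 1)) → E := fun m => P (ε m) with hQ
    have hQ1 : ∀ m, ‖Q m - x - δ • ∑ j, ((m j : ℕ) : ℝ) • b j‖ ≤ δ / 8 := by
      intro m
      have h1 := hP (ε m)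
      have h2 := sum_box hk b (fun j => (m j : ℕ)) n
      have h3 : ∀ j, min (m j : ℕ) n = m j := fun j => min_eq_left (by have := (m j).2; omega)
      simp only [h3] at h2
      rw [show (∑ i ∈ Finset.range (n * k), if ε m i = true then b ⟨i % k, Nat.mod_lt _ hk⟩ else 0)
        = ∑ j, ((m j : ℕ) : ℝ) • b j from h2] at h1
      calc _ ≤ 1 / 8 * δ := h1
        _ = δ / 8 := by ring
    set R : ℝ := δ * (k * n + 1) with hR
    set r : ℝ := δ / 2 with hr
    have hr0 : 0 < r := by positivity
    have hrR : r < R := by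
      rw [hR, hr]
      have : (0 : ℝ) ≤ k * n := by positivity
      nlinarith
    obtain ⟨M, ⟨U, hU, hcov⟩, hM⟩ := hb x (hPA _) r R hr0 hrR
    have hmem : ∀ m, Q m ∈ Metric.ball x R ∩ A := by
      intro m
      refine ⟨?_, hPA _⟩
      rw [Metric.mem_ball, dist_eq_norm]
      have h1 : Q m - x = (Q m - x - δ • ∑ j, ((m j : ℕ) : ℝ) • b j)
          + δ • ∑ j, ((m j : ℕ) : ℝ) • b j := by abel
      rw [h1]
      have h2 : ‖δ • ∑ j, ((m j : ℕ) : ℝ) • b j‖ ≤ δ * (k * n) := by
        rw [norm_smul, Real.norm_eq_abs, abs_of_pos hδ]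
        gcongr
        have : ‖∑ j, ((m j : ℕ) : ℝ) • b j‖ ≤ ∑ _j : Fin k, (n : ℝ) := by
          refine norm_sum_le_of_le _ fun j _ => ?_
          rw [norm_smul, hbn, mul_one, Real.norm_eq_abs, abs_of_nonneg (by positivity)]
          have := (m j).2
          exact_mod_cast (by omega : (m j : ℕ) ≤ n)
        refine this.trans ?_
        simp
      have h3 := norm_add_le (Q m - x - δ • ∑ j, ((m j : ℕ) : ℝ) • b j)
        (δ • ∑ j, ((m j : ℕ) : ℝ) • b j)
      have h4 := hQ1 m
      rw [hR]
      nlinarith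
    have hidx : ∀ m, ∃ i : Fin M, Q m ∈ U i := fun m => Set.mem_iUnion.1 (hcov (hmem m))
    choose f hf using hidx
    have hinj : Function.Injective f := by
      intro m m' hmm
      by_contra hne
      obtain ⟨j, hj⟩ := Function.ne_iff.1 hne
      have h1 : dist (Q m) (Q m') ≤ r := (hU (f m)).2 _ (hf m) _ (by rw [hmm]; exact hf m')
      rw [dist_eq_norm] at h1
      set S : (Fin k → Fin (n + 1)) → E := fun m => ∑ j, ((m j : ℕ) : ℝ) • b j with hS
      have h2 : δ • (S m - S m') = (Q m - Q m') - (Q m - x - δ • S m) + (Q m' - x - δ • S m') := by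
        rw [smul_sub]; abel
      have h3 : ‖δ • (S m - S m')‖ ≤ r + δ / 8 + δ / 8 := by
        rw [h2]
        refine (norm_add_le _ _).trans (add_le_add ((norm_sub_le _ _).trans
          (add_le_add h1 (hQ1 m))) (hQ1 m'))
      have h4 : (1 : ℝ) ≤ ‖S m - S m'‖ := by
        have h5 : inner ℝ (b j) (S m - S m') = ((m j : ℕ) : ℝ) - ((m' j : ℕ) : ℝ) := by
          simp only [hS, inner_sub_right, inner_sum, real_inner_smul_right, hbi, mul_ite, mul_one,
            mul_zero, Finset.sum_ite_eq, Finset.mem_univ, if_true]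
        have h6 := abs_real_inner_le_norm (b j) (S m - S m')
        rw [h5, hbn, one_mul] at h6
        refine le_trans ?_ h6
        have h7 : ((m j : ℕ) : ℤ) - ((m' j : ℕ) : ℤ) ≠ 0 := by
          intro h
          apply hj
          apply Fin.ext
          omega
        have h8 : (1 : ℤ) ≤ |((m j : ℕ) : ℤ) - ((m' j : ℕ) : ℤ)| := Int.one_le_abs h7
        exact_mod_cast h8
      rw [norm_smul, Real.norm_eq_abs, abs_of_pos hδ] at h3
      have h5 : δ * 1 ≤ δ * ‖S m - S m'‖ := by gcongr
      rw [hr] at h3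
      linarith
    have hcard : (n + 1) ^ k ≤ M := by
      have := Fintype.card_le_of_injective f hinj
      simpa using this
    have hRr : R / r = 2 * (k * n + 1) := by rw [hR, hr]; field_simp
    rw [hRr] at hM
    calc ((n : ℝ) + 1) ^ (k : ℝ) = (((n + 1) ^ k : ℕ) : ℝ) := by
          rw [Real.rpow_natCast]; push_cast; ring
      _ ≤ (M : ℝ) := by exact_mod_cast hcard
      _ ≤ C * (2 * (k * n + 1)) ^ s := hM
      _ ≤ C * (2 * (k + 1) * ((n : ℝ) + 1)) ^ s := by
          have h1 : (0 : ℝ) ≤ n := by positivity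
          have h2 : 2 * ((k : ℝ) * n + 1) ≤ 2 * (k + 1) * ((n : ℝ) + 1) := by nlinarith
          exact mul_le_mul_of_nonneg_left (Real.rpow_le_rpow (by positivity) h2 hs) hC.le
  -- let `n → ∞`
  have hks : 0 < (k : ℝ) - s := by linarith
  have hlim := (tendsto_rpow_atTop hks).comp
    (Filter.tendsto_atTop_add_const_right Filter.atTop (1 : ℝ) tendsto_natCast_atTop_atTop)
  obtain ⟨n, hn⟩ := (hlim.eventually_gt_atTop (C * (2 * ((k : ℝ) + 1)) ^ s)).exists
  have h1 := key n
  have hn0 : (0 : ℝ) < (n : ℝ) + 1 := by positivity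
  rw [Real.mul_rpow (by positivity) hn0.le, ← mul_assoc] at h1
  have h2 : ((n : ℝ) + 1) ^ (k : ℝ) = ((n : ℝ) + 1) ^ ((k : ℝ) - s) * ((n : ℝ) + 1) ^ s := by
    rw [← Real.rpow_add hn0]; congr 1; ring
  rw [h2] at h1
  have h3 : 0 < ((n : ℝ) + 1) ^ s := Real.rpow_pos_of_pos hn0 s
  have h4 := le_of_mul_le_mul_right h1 h3
  simp only [Function.comp_apply] at hn
  linarith

end Lower

/-- **Main theorem.** Let `1 ≤ k < d` and let `F ⊆ ℝ^d` be a self-similar set with at least two
points, the attractor of a finite family of contracting similarities whose rotations are dense.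
Then `dim_A π F = k` for the orthogonal projection `π` onto any `k`-dimensional subspace `V`. -/
theorem result (d k : ℕ) (hk : 1 ≤ k) (hkd : k < d) (ι : Type*) [Finite ι]
    (S : Similarities (EuclideanSpace ℝ (Fin d)) ι) (hS : S.DenseRotations)
    (F : Set (EuclideanSpace ℝ (Fin d))) (hF : S.IsAttractor F) (hF2 : F.Nontrivial)
    (V : Submodule ℝ (EuclideanSpace ℝ (Fin d))) (hV : finrank ℝ V = k) :
    assouadDim (projectedSet V F) = k := by
  have hVtop : V ≠ ⊤ := by
    rintro rfl
    rw [finrank_top, finrank_euclideanSpace_fin] at hV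
    omega
  obtain ⟨-, hFc, hFu⟩ := hF
  set A : Set (EuclideanSpace ℝ (Fin d)) := projectedSet V F with hA
  have hAV : A ⊆ V := by
    rintro _ ⟨x, -, rfl⟩
    exact Submodule.starProjection_apply_mem V x
  have hleast : IsLeast {s : ℝ | 0 ≤ s ∧ ∃ C : ℝ, 0 < C ∧ AssouadBound A s C} (k : ℝ) := by
    constructor
    · refine ⟨by positivity, (8 * k + 3 : ℝ) ^ k, by positivity, ?_⟩
      exact assouadBound_of_subset hk V hV A hAV
    · rintro s ⟨hs, C, hC, hb⟩
      refine le_of_assouadBound hk V hV A ?_ hs hC hb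
      intro N e heV he1 η hη
      obtain ⟨δ, hδ, P, hPF, hP⟩ := Helper98_Assouad.exists_progression S.ratio S.rot S.shift
        S.ratio_mem hFu hFc hF2 hS V hVtop N e heV he1 hη
      exact ⟨δ, hδ, fun ε => V.starProjection (P ε), fun ε => ⟨P ε, hPF ε, rfl⟩, hP⟩
  exact hleast.csInf_eq

end Pool.Agent.Results.MP_b41e65_an.AssouadProjections
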